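import Pool.Agent.PSS.StmtsS3

/-!
# Squad PSS, row GFB (helper64): base change of the class
-/

set_option autoImplicit false

open scoped BigOperators TensorProduct

noncomputable section

namespace Pool.Agent.PSS.H64

open Pool.Agent.PFC (tw IsTv)
open Pool.Agent.PFD.D2b (FrR)

section bc

variable {R S W A : Type} [CommRing R] [CommRing S] [Algebra R S] [CommGroup W]
  [Ring A] [Algebra R A]

/-- base change of a functional -/
def bcf (S : Type) [CommRing S] [Algebra R S] (c : A →ₗ[R] R) : S ⊗[R] A →ₗ[S] S :=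
  (TensorProduct.AlgebraTensorModule.rid R S S).toLinearMap.comp (LinearMap.baseChange S c)

theorem bcf_ap (c : A →ₗ[R] R) (s : S) (a : A) :
    bcf S c (s ⊗ₜ[R] a) = s * algebraMap R S (c a) := by
  unfold bcf
  rw [LinearMap.comp_apply, LinearMap.baseChange_tmul]
  change (TensorProduct.AlgebraTensorModule.rid R S S) (s ⊗ₜ[R] c a) = _
  rw [TensorProduct.AlgebraTensorModule.rid_tmul, Algebra.smul_def, mul_comm]

theorem sm_t (s : S) (r : R) (z : A) :
    (s * algebraMap R S r) • ((1 : S) ⊗ₜ[R] z) = s ⊗ₜ[R] (r • z) := by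
  rw [TensorProduct.smul_tmul', smul_eq_mul, mul_one, mul_comm, ← Algebra.smul_def,
    TensorProduct.smul_tmul]

theorem bcw_ap (γ : W →* A) (w : W) : bcw (R := R) (S := S) γ w = (1 : S) ⊗ₜ[R] γ w := rfl

theorem bw_t (γ : W →* A) (g : W × W) (s : S) (a : A) :
    bw S (bcw (R := R) (S := S) γ) g (s ⊗ₜ[R] a) = s ⊗ₜ[R] (bw R γ g a) := by
  change bcw (R := R) (S := S) γ g.1 * ((s ⊗ₜ[R] a) * bcw (R := R) (S := S) γ g.2⁻¹) =
    s ⊗ₜ[R] (γ g.1 * (a * γ g.2⁻¹))
  rw [bcw_ap, bcw_ap, Algebra.TensorProduct.tmul_mul_tmul, Algebra.TensorProduct.tmul_mul_tmul,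
    mul_one, one_mul]

theorem cw_t (γ : W →* A) (g : W) (s : S) (a : A) :
    cw S (bcw (R := R) (S := S) γ) g (s ⊗ₜ[R] a) = s ⊗ₜ[R] (cw R γ g a) :=
  bw_t γ (g, g) s a

theorem fx_t (γ : W →* A) (P : Subgroup W) {a : A} (ha : a ∈ FxR (cw R γ) P) :
    (1 : S) ⊗ₜ[R] a ∈ FxR (cw S (bcw (R := R) (S := S) γ)) P := by
  intro v hv
  rw [cw_t, ha v hv]

end bc

theorem gfb : Pool.Agent.PSS.S3.GfbStmt := by
  intro R S W E A K _ _ _ _ _ _ _ _ _ ψ γ lam x y hRF hPer hUni
  refine ⟨⟨bcf S lam, bcf_ap lam, ?_, ?_, ?_⟩, ?_, ?_, ?_⟩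
  · -- sym
    intro m n
    induction m using TensorProduct.induction_on with
    | zero => rw [zero_mul, mul_zero]
    | add m m' h1 h2 => rw [add_mul, mul_add, map_add, map_add, h1, h2]
    | tmul s a =>
      induction n using TensorProduct.induction_on with
      | zero => rw [zero_mul, mul_zero]
      | add n n' h1 h2 => rw [add_mul, mul_add, map_add, map_add, h1, h2]
      | tmul t b =>
        rw [Algebra.TensorProduct.tmul_mul_tmul, Algebra.TensorProduct.tmul_mul_tmul, bcf_ap,
          bcf_ap, hRF.sym, mul_comm s t]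
  · -- e1
    intro m
    induction m using TensorProduct.induction_on with
    | zero =>
      refine Finset.sum_eq_zero (fun k _ => Finset.sum_eq_zero (fun v _ => ?_))
      rw [mul_zero, map_zero, zero_smul]
    | add m m' h1 h2 =>
      refine Eq.trans ?_ (congrArg₂ (· + ·) h1 h2)
      rw [← Finset.sum_add_distrib]
      refine Finset.sum_congr rfl (fun k _ => ?_)
      rw [← Finset.sum_add_distrib]
      refine Finset.sum_congr rfl (fun v _ => ?_)
      rw [mul_add, map_add, add_smul]
    | tmul s a =>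
      have h1 := congrArg (fun t => s ⊗ₜ[R] t) (hRF.e1 a)
      refine Eq.trans ?_ h1
      rw [TensorProduct.tmul_sum]
      refine Finset.sum_congr rfl (fun k _ => ?_)
      rw [TensorProduct.tmul_sum]
      refine Finset.sum_congr rfl (fun v _ => ?_)
      rw [bcw_ap, bcw_ap, Algebra.TensorProduct.tmul_mul_tmul,
        Algebra.TensorProduct.tmul_mul_tmul, Algebra.TensorProduct.tmul_mul_tmul, one_mul,
        one_mul, bcf_ap, sm_t]
  · -- e2
    intro m
    induction m using TensorProduct.induction_on with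
    | zero =>
      refine Finset.sum_eq_zero (fun k _ => Finset.sum_eq_zero (fun v _ => ?_))
      rw [zero_mul, map_zero, zero_smul]
    | add m m' h1 h2 =>
      refine Eq.trans ?_ (congrArg₂ (· + ·) h1 h2)
      rw [← Finset.sum_add_distrib]
      refine Finset.sum_congr rfl (fun k _ => ?_)
      rw [← Finset.sum_add_distrib]
      refine Finset.sum_congr rfl (fun v _ => ?_)
      rw [add_mul, map_add, add_smul]
    | tmul s a =>
      have h1 := congrArg (fun t => s ⊗ₜ[R] t) (hRF.e2 a)
      refine Eq.trans ?_ h1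
      rw [TensorProduct.tmul_sum]
      refine Finset.sum_congr rfl (fun k _ => ?_)
      rw [TensorProduct.tmul_sum]
      refine Finset.sum_congr rfl (fun v _ => ?_)
      rw [bcw_ap, bcw_ap, Algebra.TensorProduct.tmul_mul_tmul,
        Algebra.TensorProduct.tmul_mul_tmul, Algebra.TensorProduct.tmul_mul_tmul, one_mul,
        mul_one, bcf_ap, sm_t]
  · -- Per
    obtain ⟨Ω, i1, i2, b, c, ⟨f1, f2, f3⟩, hst⟩ := hPer
    refine ⟨Ω, i1, i2, fun ω => (1 : S) ⊗ₜ[R] b ω, fun ω => bcf S (c ω), ⟨?_, ?_, ?_⟩, hst⟩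
    · intro g ω
      rw [bw_t, ← f1]
    · intro g ω m
      induction m using TensorProduct.induction_on with
      | zero => rw [map_zero, map_zero, map_zero]
      | add m m' h1 h2 => rw [map_add, map_add, map_add, h1, h2]
      | tmul s a => rw [bw_t, bcf_ap, bcf_ap, f2]
    · intro m
      induction m using TensorProduct.induction_on with
      | zero =>
        refine Finset.sum_eq_zero (fun ω _ => ?_)
        rw [map_zero, zero_smul]
      | add m m' h1 h2 =>
        refine Eq.trans ?_ (congrArg₂ (· + ·) h1 h2)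
        rw [← Finset.sum_add_distrib]
        refine Finset.sum_congr rfl (fun ω _ => ?_)
        rw [map_add, add_smul]
      | tmul s a =>
        have h1 := congrArg (fun t => s ⊗ₜ[R] t) (f3 a)
        refine Eq.trans ?_ h1
        change _ = s ⊗ₜ[R] (∑ ω, c ω a • b ω)
        rw [TensorProduct.tmul_sum]
        refine Finset.sum_congr rfl (fun ω _ => ?_)
        rw [bcf_ap, sm_t]
  · -- Uni
    intro e
    obtain ⟨z, z', h1, h2, h3⟩ := hUni e
    refine ⟨(1 : S) ⊗ₜ[R] z, (1 : S) ⊗ₜ[R] z', ?_, ?_, ?_⟩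
    · rw [Algebra.TensorProduct.tmul_mul_tmul, mul_one, h1]
      rfl
    · rw [Algebra.TensorProduct.tmul_mul_tmul, mul_one, h2]
      rfl
    · intro u
      rw [bcw_ap, bcw_ap, Algebra.TensorProduct.tmul_mul_tmul,
        Algebra.TensorProduct.tmul_mul_tmul, h3]
  · intro P
    refine ⟨fun a ha => fx_t γ P ha, ?_⟩
    intro a ha
    have hle : BKR (cw R γ) P ≤ ((BKR (cw S (bcw (R := R) (S := S) γ)) P).restrictScalars R).comap
        (TensorProduct.mk R S A 1) := by
      unfold BKR
      rw [Submodule.span_le]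
      rintro n ⟨P', T, m, h1, h2, h3, rfl⟩
      change (1 : S) ⊗ₜ[R] (∑ v ∈ T, cw R γ v m) ∈ Submodule.span S _
      refine Submodule.subset_span ⟨P', T, (1 : S) ⊗ₜ[R] m, h1, h2, fx_t γ P' h3, ?_⟩
      rw [TensorProduct.tmul_sum]
      exact Finset.sum_congr rfl (fun v _ => (cw_t γ v 1 m).symm)
    exact hle ha

end Pool.Agent.PSS.H64
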