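import Pool.Agent.PSS.StmtsS0

/-!
# Squad PSS, row MCK (helper64): the Mackey formula
-/

set_option autoImplicit false

open scoped BigOperators

noncomputable section

namespace Pool.Agent.PSS.H64

open Pool.Agent.PSS.S0
open Pool.Agent.PFC (tw IsTv)
open Pool.Agent.PFD.D2b (FrR)

section orb

variable {V Ω : Type} [CommGroup V] [MulAction (V × V) Ω]

theorem mk_eq {ω ω' : Ω} : Quotient.mk (ROrb V Ω) ω = Quotient.mk (ROrb V Ω) ω' ↔
    ∃ v : V, ((1, v) : V × V) • ω = ω' := Quotient.eq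

/-- the action of `V` on the right orbits -/
@[reducible] def qact (V Ω : Type) [CommGroup V] [MulAction (V × V) Ω] :
    MulAction V (Quotient (ROrb V Ω)) where
  smul := fun q => Quotient.map (fun ω => ((q, 1) : V × V) • ω) (by
    rintro ω ω' ⟨v, rfl⟩
    refine ⟨v, ?_⟩
    rw [smul_smul, smul_smul]
    simp)
  one_smul := by
    intro κ
    induction κ using Quotient.inductionOn with
    | _ ω => exact congrArg (Quotient.mk _) (one_smul (V × V) ω)
  mul_smul := by
    intro q r κ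
    induction κ using Quotient.inductionOn with
    | _ ω =>
      refine congrArg (Quotient.mk _) ?_
      change ((q * r, 1) : V × V) • ω = ((q, 1) : V × V) • ((r, 1) : V × V) • ω
      rw [smul_smul]
      simp

/-- the right orbits of an invariant subset -/
def inj (Q : Subgroup V) (θ : MulAut V) : Quotient (ROrb V (OQt Q θ Ω)) → Quotient (ROrb V Ω) :=
  Quotient.map (fun ω => (ω : Ω)) (by
    rintro ω ω' ⟨v, rfl⟩
    exact ⟨v, rfl⟩)

theorem inj_inj (Q : Subgroup V) (θ : MulAut V) :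
    Function.Injective (inj (Ω := Ω) Q θ) := by
  intro κ κ' h
  induction κ using Quotient.inductionOn with
  | _ ω =>
    induction κ' using Quotient.inductionOn with
    | _ ω' =>
      obtain ⟨v, hv⟩ := mk_eq.1 h
      exact mk_eq.2 ⟨v, Subtype.ext hv⟩

end orb

section fx

variable {R V A B : Type} [CommRing R] [CommGroup V] [Ring A] [Algebra R A] [Ring B] [Algebra R B]

theorem cw_ap (α : V →* A) (v : V) (a : A) : cw R α v a = α v * (a * α v⁻¹) := rfl

theorem al_inv (α : V →* A) (v : V) : α v⁻¹ * α v = 1 := by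
  rw [← map_mul, inv_mul_cancel, map_one]

theorem al_inv' (α : V →* A) (v : V) : α v * α v⁻¹ = 1 := by
  rw [← map_mul, mul_inv_cancel, map_one]

theorem fx_iff (α : V →* A) (P : Subgroup V) (a : A) :
    a ∈ FxR (cw R α) P ↔ ∀ v ∈ P, α v * a = a * α v := by
  constructor
  · intro h v hv
    have h1 : α v * (a * α v⁻¹) = a := h v hv
    calc α v * a = α v * (a * (α v⁻¹ * α v)) := by rw [al_inv, mul_one]
      _ = (α v * (a * α v⁻¹)) * α v := by simp only [mul_assoc]
      _ = a * α v := by rw [h1]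
  · intro h v hv
    change α v * (a * α v⁻¹) = a
    rw [← mul_assoc, h v hv, mul_assoc, al_inv', mul_one]

theorem fx_mul (α : V →* A) (P : Subgroup V) {a b : A} (ha : a ∈ FxR (cw R α) P)
    (hb : b ∈ FxR (cw R α) P) : a * b ∈ FxR (cw R α) P := by
  rw [fx_iff] at ha hb ⊢
  intro v hv
  rw [← mul_assoc, ha v hv, mul_assoc, hb v hv, mul_assoc]

theorem fx_al (α : V →* A) (P : Subgroup V) (u : V) : α u ∈ FxR (cw R α) P := by
  rw [fx_iff]
  intro v _
  rw [← map_mul, mul_comm, map_mul]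

theorem fx_top (α : V →* A) (P : Subgroup V) {a : A} (ha : a ∈ FxR (cw R α) ⊤) :
    a ∈ FxR (cw R α) P := fun v _ => ha v (Subgroup.mem_top v)

variable {α : V →* A} {Q : Subgroup V} {αB : V →* B} {β : A → B}

theorem be_zero (hβ : IsBQ R α Q αB β) : β 0 = 0 :=
  (hβ.ker 0 (Submodule.zero_mem _)).2 (Submodule.zero_mem _)

theorem be_sum (hβ : IsBQ R α Q αB β) {I : Type} (s : Finset I) (f : I → A)
    (hf : ∀ i ∈ s, f i ∈ FxR (cw R α) Q) : β (∑ i ∈ s, f i) = ∑ i ∈ s, β (f i) := by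
  classical
  induction s using Finset.induction_on with
  | empty => simp [be_zero hβ]
  | insert a s ha ih =>
    rw [Finset.sum_insert ha, Finset.sum_insert ha, hβ.add, ih]
    · intro i hi
      exact hf i (Finset.mem_insert_of_mem hi)
    · exact hf a (Finset.mem_insert_self a s)
    · exact Submodule.sum_mem _ (fun i hi => hf i (Finset.mem_insert_of_mem hi))

theorem be_sub (hβ : IsBQ R α Q αB β) {a b : A} (ha : a ∈ FxR (cw R α) Q)
    (hb : b ∈ FxR (cw R α) Q) (h : a - b ∈ BKR (cw R α) Q) : β a = β b := by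
  have h1 : a - b ∈ FxR (cw R α) Q := Submodule.sub_mem _ ha hb
  have h2 : β a = β (b + (a - b)) := by rw [add_sub_cancel]
  rw [h2, hβ.add b hb _ h1, (hβ.ker _ h1).2 h, add_zero]

end fx

theorem mck (hRFD : RfdStmt) (hIND : IndStmt) (hRFO : RfoStmt) (hSFQ : SfqStmt)
    (hFPX : FpxStmt) : MckStmt := by
  classical
  intro ℓ _ R V E A B K KB _ _ _ _ _ _ _ _ _ _ φ α Q αB β lam x y lamB xB yB n n' T _ _ hPer
    hRF hβ hRB hlam hn hT a ha
  obtain ⟨Ω, _, _, b, c, hF, hst⟩ := hPer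
  have hfree : ∀ (v : V) (ω : Ω), ((1, v) : V × V) • ω = ω → v = 1 := by
    intro v ω h
    obtain ⟨e, S, hS⟩ := hst ω
    have h1 : ((1, v) : V × V) ∈ MulAction.stabilizer (V × V) ω := h
    rw [hS] at h1
    obtain ⟨s, _, hs2⟩ := h1
    have h3 : φ e s = 1 := congrArg Prod.fst hs2
    have h4 : s = v := congrArg Prod.snd hs2
    rw [← h4]
    exact (MulEquiv.map_eq_one_iff (φ e)).1 h3
  obtain ⟨d, -, hSF⟩ := hRFD R V A K Ω α lam x y b c hRF hF hfree
  have hac : ∀ v, α v * a = a * α v := fun v =>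
    (fx_iff (R := R) α ⊤ a).1 ha v (Subgroup.mem_top v)
  -- the function on the right orbits
  obtain ⟨g, hg⟩ : ∃ g : Quotient (ROrb V Ω) → A,
      ∀ ω, g (Quotient.mk (ROrb V Ω) ω) = b ω * a * d ω := by
    refine ⟨Quotient.lift (fun ω => b ω * a * d ω) ?_, fun ω => rfl⟩
    rintro ω ω' ⟨v, rfl⟩
    rw [hSF.eb, hSF.ed]
    change b ω * a * d ω = α 1 * b ω * α (v)⁻¹ * a * (α v * d ω * α (1)⁻¹)
    rw [inv_one, map_one, one_mul, mul_one, mul_assoc (b ω) (α v⁻¹) a, hac v⁻¹,
      ← mul_assoc (b ω) a (α v⁻¹), mul_assoc (b ω * a) (α v⁻¹), ← mul_assoc (α v⁻¹) (α v),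
      al_inv, one_mul]
  obtain ⟨x1, y1, hRF1, h1⟩ := hRFO R V A Ω 1 α lam b d hSF
  have hrt : ∑ k, x k * a * y k = ∑ κ, g κ := by
    rw [hIND R V A K _ α lam x y x1 y1 hRF hRF1 a ha, h1 a ha g hg]
  let _ : MulAction V (Quotient (ROrb V Ω)) := qact V Ω
  have hsm : ∀ (q : V) (ω : Ω), q • (Quotient.mk (ROrb V Ω) ω) =
      Quotient.mk (ROrb V Ω) (((q, 1) : V × V) • ω) := fun _ _ => rfl
  have hgq : ∀ (q : V) (κ : Quotient (ROrb V Ω)), g (q • κ) = cw R α q (g κ) := by
    intro q κ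
    induction κ using Quotient.inductionOn with
    | _ ω =>
      rw [hsm, hg, hg, hSF.eb, hSF.ed, cw_ap]
      change α q * b ω * α (1)⁻¹ * a * (α 1 * d ω * α q⁻¹) = _
      rw [inv_one, map_one, one_mul, mul_one]
      simp only [mul_assoc]
  -- the types
  let Kt : E → Finset (Quotient (ROrb V Ω)) := fun t => Finset.univ.image (inj Q (φ t))
  have hKt : ∀ t ω, Quotient.mk (ROrb V Ω) ω ∈ Kt t ↔ ω ∈ OQt Q (φ t) Ω := by
    intro t ω
    constructor
    · intro h
      obtain ⟨κ, -, hκ⟩ := Finset.mem_image.1 h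
      induction κ using Quotient.inductionOn with
      | _ ω' =>
        obtain ⟨v, hv⟩ := mk_eq.1 hκ
        rw [← hv]
        exact (OQt Q (φ t) Ω).smul_mem _ ω'.2
    · intro h
      exact Finset.mem_image.2 ⟨Quotient.mk _ ⟨ω, h⟩, Finset.mem_univ _, rfl⟩
  have hK0 : ∀ κ, κ ∈ T.biUnion Kt ↔ ∀ h ∈ Q, h • κ = κ := by
    intro κ
    induction κ using Quotient.inductionOn with
    | _ ω =>
      rw [Finset.mem_biUnion]
      constructor
      · rintro ⟨t, _, ht⟩ h hh
        have h2 : ω ∈ OQt Q (φ t) Ω := (hKt t ω).1 ht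
        rw [hsm, mk_eq]
        refine ⟨(φ t)⁻¹ h, ?_⟩
        rw [smul_smul]
        have h3 := h2 h hh
        simpa using h3
      · intro h
        obtain ⟨e, S, hS⟩ := hst ω
        have h2 : ω ∈ OQt Q (φ e) Ω := by
          intro q hq
          have h3 := h q hq
          rw [hsm, mk_eq] at h3
          obtain ⟨v, hv⟩ := h3
          rw [smul_smul] at hv
          have h4 : ((q, v) : V × V) ∈ MulAction.stabilizer (V × V) ω := by
            change ((q, v) : V × V) • ω = ω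
            simpa using hv
          have h5 := h4
          rw [hS] at h5
          obtain ⟨s, _, hs2⟩ := h5
          have h6 : φ e s = q := congrArg Prod.fst hs2
          have h7 : s = v := congrArg Prod.snd hs2
          have h8 : (φ e)⁻¹ q = v := by
            rw [← h6, h7]
            exact (φ e).symm_apply_apply v
          rw [h8]
          exact h4
        obtain ⟨t, ⟨htT, ht⟩, _⟩ := hT e
        refine ⟨t, htT, (hKt t ω).2 ?_⟩
        intro q hq
        rw [ht q hq]
        exact h2 q hq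
  have hdisj : ∀ t ∈ T, ∀ t' ∈ T, t ≠ t' → Disjoint (Kt t) (Kt t') := by
    intro t ht t' ht' hne
    rw [Finset.disjoint_left]
    intro κ
    induction κ using Quotient.inductionOn with
    | _ ω =>
      intro h2 h3
      rw [hKt] at h2 h3
      apply hne
      obtain ⟨t0, _, hu⟩ := hT t'
      have e1 := hu t ⟨ht, fun q hq => by
        have h4 := h2 q hq
        have h5 := h3 q hq
        have h6 : ((1, ((φ t')⁻¹ q)⁻¹ * (φ t)⁻¹ q) : V × V) • ω = ω := by
          have h7 : ((1, ((φ t')⁻¹ q)⁻¹ * (φ t)⁻¹ q) : V × V) =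
              ((q, (φ t')⁻¹ q) : V × V)⁻¹ * ((q, (φ t)⁻¹ q) : V × V) := by
            ext
            · simp
            · rfl
          rw [h7, ← smul_smul, h4, inv_smul_eq_iff, h5]
        have h8 := hfree _ _ h6
        exact (inv_mul_eq_one.1 h8).symm⟩
      have e2 := hu t' ⟨ht', fun q _ => rfl⟩
      rw [e1, e2]
  -- Brauer map
  have hgF : ∀ κ ∈ T.biUnion Kt, g κ ∈ FxR (cw R α) Q := by
    intro κ hκ h hh
    rw [← hgq, (hK0 κ).1 hκ h hh]
  have hsF : ∑ κ, g κ ∈ FxR (cw R α) Q := by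
    intro h _
    rw [map_sum]
    rw [← Finset.sum_congr rfl (fun κ _ => hgq h κ)]
    exact Fintype.sum_equiv (MulAction.toPerm h) _ _ (fun κ => rfl)
  have hfpx := hFPX R V A (Quotient (ROrb V Ω)) (cw R α) Q g (T.biUnion Kt)
    (fun h _ κ => hgq h κ) hK0
  have hmain : β (∑ k, x k * a * y k) = ∑ κ ∈ T.biUnion Kt, β (g κ) := by
    rw [hrt, be_sub hβ hsF (Submodule.sum_mem _ hgF) hfpx, be_sum hβ _ _ hgF]
  rw [hmain, Finset.sum_biUnion hdisj]
  refine Finset.sum_congr rfl (fun t _ => ?_)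
  obtain ⟨n1, n2, n3⟩ := hn t
  obtain ⟨hm, hSFB⟩ := hSFQ R V A B Ω α Q αB β lam lamB b d (φ t) (n t) (n' t) hSF hβ hlam n1 n2 n3
  obtain ⟨x2, y2, hRF2, h2⟩ := hRFO R V B (OQt Q (φ t) Ω) (φ t) αB lamB _ _ hSFB
  -- `n a n'` commutes with `V`
  have n4 : ∀ u, n' t * α (φ t u) = α u * n' t := by
    intro u
    calc n' t * α (φ t u) = n' t * (α (φ t u) * (n t * n' t)) := by rw [n1, mul_one]
      _ = n' t * (α (φ t u) * n t) * n' t := by simp only [mul_assoc]
      _ = n' t * (n t * α u) * n' t := by rw [n3]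
      _ = α u * n' t := by rw [← mul_assoc, n2, one_mul]
  have hnan : n t * a * n' t ∈ FxR (cw R α) ⊤ := by
    rw [fx_iff]
    intro v _
    obtain ⟨u, hu⟩ : ∃ u, φ t u = v := (φ t).surjective v
    rw [← hu]
    calc α (φ t u) * (n t * a * n' t) = (α (φ t u) * n t) * a * n' t := by
          simp only [mul_assoc]
      _ = n t * α u * a * n' t := by rw [n3]
      _ = n t * (a * (α u * n' t)) := by rw [mul_assoc (n t), hac]; simp only [mul_assoc]
      _ = n t * (a * (n' t * α (φ t u))) := by rw [n4]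
      _ = n t * a * n' t * α (φ t u) := by simp only [mul_assoc]
  have hnanQ := fx_top (R := R) α Q hnan
  have hbf : β (n t * a * n' t) ∈ FxR (cw R αB) ⊤ := by
    rw [fx_iff]
    intro v _
    rw [← hβ.om, ← hβ.mul _ (fx_al α Q v) _ hnanQ, ← hβ.mul _ hnanQ _ (fx_al α Q v),
      (fx_iff (R := R) α ⊤ _).1 hnan v (Subgroup.mem_top v)]
  rw [hIND R V B KB _ αB lamB xB yB x2 y2 hRB hRF2 _ hbf,
    h2 _ hbf (fun κ => β (g (inj Q (φ t) κ))) ?_]
  · exact Finset.sum_image (fun κ _ κ' _ h => inj_inj Q (φ t) h)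
  · intro ω
    change β (g (Quotient.mk (ROrb V Ω) (ω : Ω))) =
      β (b ω * n' t) * β (n t * a * n' t) * β (n t * d ω)
    obtain ⟨m1, m2⟩ := hm ω ω.2
    rw [hg, ← hβ.mul _ m1 _ hnanQ, ← hβ.mul _ (fx_mul α Q m1 hnanQ) _ m2]
    congr 1
    calc b ω * a * d ω = b ω * (n' t * n t) * a * (n' t * n t) * d ω := by
          rw [n2, mul_one, mul_one]
      _ = b ω * n' t * (n t * a * n' t) * (n t * d ω) := by simp only [mul_assoc]

end Pool.Agent.PSS.H64
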