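import Pool.Agent.PSS.StmtsS2

/-!
# Squad PSS, row IDT (helper64)
-/

set_option autoImplicit false

noncomputable section

namespace Pool.Agent.PSS.H64

theorem idt : Pool.Agent.PSS.S2.IdtStmt := by
  intro F A _ _ _ lam D s c j hsym hD hj hs hc
  have h1 : D j = D j * j + j * D j := by
    conv_lhs => rw [← hj]
    exact hD j j
  have h2 : j * D j * j = 0 := by
    have h3 : j * D j * j = j * D j * j + j * D j * j := by
      conv_lhs => rw [h1]
      rw [mul_add, add_mul, ← mul_assoc, ← mul_assoc, hj, mul_assoc (j * D j) j j, hj]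
    have h4 := congrArg (fun t => t - j * D j * j) h3
    simp only [sub_self, add_sub_cancel_right] at h4
    exact h4.symm
  have h0 : lam (s * (j * D j * j) * c) = 0 := by
    rw [h2, mul_zero, zero_mul, map_zero]
  have e1 : lam (s * (D j * j) * c) = 0 := by
    have h5 : s * (D j * j) * c = (s * (D j * j) * c) * j := by
      rw [mul_assoc (s * (D j * j)) c j, hc j, ← mul_assoc (s * (D j * j)) j c,
        mul_assoc s (D j * j) j, mul_assoc (D j) j j, hj]
    have h6 : j * (s * (D j * j) * c) = s * (j * D j * j) * c := by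
      rw [← mul_assoc, ← mul_assoc, ← hs]
      simp only [mul_assoc]
    rw [h5, hsym, h6, h0]
  have e2 : lam (s * (j * D j) * c) = 0 := by
    have h5 : s * (j * D j) * c = j * (s * (j * D j) * c) := by
      rw [← mul_assoc j (s * (j * D j)) c, ← mul_assoc j s (j * D j), ← hs,
        mul_assoc s j (j * D j), ← mul_assoc j j (D j), hj]
    have h6 : (s * (j * D j) * c) * j = s * (j * D j * j) * c := by
      rw [mul_assoc (s * (j * D j)) c j, hc j]
      simp only [mul_assoc]
    rw [h5, hsym, h6, h0]
  rw [h1, mul_add, add_mul, map_add, e1, e2, add_zero]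

end Pool.Agent.PSS.H64
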