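import Pool.Agent.PSS.StmtsS1a
import Pool.Agent.Helper10_PFD.Sug
import Pool.Agent.Helper76_PFD.IDG

/-!
# Squad PSS, row MOL (helper64): a permutation frame lifts
-/

set_option autoImplicit false

open scoped BigOperators

noncomputable section

namespace Pool.Agent.PSS.H64

open Pool.Agent.PFD.D2 (Cdv FibG)
open Pool.Agent.PFD.D2b (FrR)

/-- the permutation action on the functions -/
def tau (R : Type) {G Ω : Type} [CommRing R] [Group G] [MulAction G Ω] :
    G →* ((Ω → R) →ₗ[R] (Ω → R)) where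
  toFun := fun g =>
    { toFun := fun x ω => x (g⁻¹ • ω)
      map_add' := fun _ _ => rfl
      map_smul' := fun _ _ => rfl }
  map_one' := by
    apply LinearMap.ext
    intro x
    funext ω
    change x ((1 : G)⁻¹ • ω) = x ω
    rw [inv_one, one_smul]
  map_mul' := by
    intro g h
    apply LinearMap.ext
    intro x
    funext ω
    change x ((g * h)⁻¹ • ω) = x (h⁻¹ • g⁻¹ • ω)
    rw [mul_inv_rev, mul_smul]

theorem tau_ap {R G Ω : Type} [CommRing R] [Group G] [MulAction G Ω] (g : G) (x : Ω → R) (ω : Ω) :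
    tau R g x ω = x (g⁻¹ • ω) := rfl

theorem mol : MolStmt := by
  classical
  intro R F G M₀ Ω _ _ _ _ c _ _ _ _ _ ρ₀ b₀ c₀ hF
  obtain ⟨f1, f2, f3⟩ := hF
  have hκπ : c.κ c.π = 0 := (c.ker _).2 ⟨1, (mul_one _).symm⟩
  obtain ⟨s, hs⟩ : ∃ s : F → R, ∀ a, c.κ (s a) = a :=
    ⟨Function.surjInv c.surj, Function.surjInv_eq c.surj⟩
  -- the map to `M₀`
  obtain ⟨pr, hpr⟩ : ∃ pr : (Ω → R) →+ M₀, ∀ x, pr x = ∑ ω, c.κ (x ω) • b₀ ω :=
    ⟨{ toFun := fun x => ∑ ω, c.κ (x ω) • b₀ ω
       map_zero' := by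
         refine Finset.sum_eq_zero (fun ω _ => ?_)
         rw [Pi.zero_apply, map_zero, zero_smul]
       map_add' := by
         intro x y
         rw [← Finset.sum_add_distrib]
         refine Finset.sum_congr rfl (fun ω _ => ?_)
         rw [Pi.add_apply, map_add, add_smul] }, fun _ => rfl⟩
  have hprs : ∀ (r : R) (x : Ω → R), pr (r • x) = c.κ r • pr x := by
    intro r x
    rw [hpr, hpr, Finset.smul_sum]
    refine Finset.sum_congr rfl (fun ω _ => ?_)
    rw [Pi.smul_apply, smul_eq_mul, map_mul, mul_smul]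
  have hprπ : ∀ x : Ω → R, pr (c.π • x) = 0 := by
    intro x
    rw [hprs, hκπ, zero_smul]
  -- the approximate idempotent
  have hginv : ∀ (g : G) (ω' ω : Ω), c₀ (g⁻¹ • ω') (b₀ (g⁻¹ • ω)) = c₀ ω' (b₀ ω) := by
    intro g ω' ω
    rw [f1, f2]
  obtain ⟨e, he⟩ : ∃ e : Module.End R (Ω → R), ∀ x ω', e x ω' = ∑ ω, s (c₀ ω' (b₀ ω)) * x ω :=
    ⟨{ toFun := fun x ω' => ∑ ω, s (c₀ ω' (b₀ ω)) * x ω
       map_add' := by
         intro x y
         funext ω'
         rw [Pi.add_apply, ← Finset.sum_add_distrib]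
         refine Finset.sum_congr rfl (fun ω _ => ?_)
         rw [Pi.add_apply, mul_add]
       map_smul' := by
         intro r x
         funext ω'
         rw [Pi.smul_apply, Finset.smul_sum]
         refine Finset.sum_congr rfl (fun ω _ => ?_)
         rw [Pi.smul_apply, smul_eq_mul, smul_eq_mul, RingHom.id_apply]
         ring }, fun _ _ => rfl⟩
  have heκ : ∀ x ω', c.κ (e x ω') = c₀ ω' (pr x) := by
    intro x ω'
    rw [he, hpr, map_sum, map_sum]
    refine Finset.sum_congr rfl (fun ω _ => ?_)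
    rw [map_mul, hs, map_smul, smul_eq_mul, mul_comm]
  have hpre : ∀ x, pr (e x) = pr x := by
    intro x
    rw [hpr (e x)]
    rw [Finset.sum_congr rfl (fun ω _ => by rw [heκ]), f3]
  have hred : ∀ x y : Ω → R, (∀ ω, c.κ (x ω) = c.κ (y ω)) → ∃ z, x - y = c.π • z := by
    intro x y h
    have h1 : ∀ ω, ∃ t, x ω - y ω = c.π * t := by
      intro ω
      rw [← c.ker, map_sub, h ω, sub_self]
    choose z hz using h1
    refine ⟨z, ?_⟩
    funext ω
    rw [Pi.sub_apply, hz, Pi.smul_apply, smul_eq_mul]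
  obtain ⟨g, hgg, hgS, hge⟩ := Pool.Agent.PFD.D2.H76.idg Pool.Agent.PFD.D2.H10.sug R F (Ω → R) c
    (Set.range (fun h : G => (tau R h : Module.End R (Ω → R)))) e
    (by
      rintro _ ⟨h, rfl⟩
      apply LinearMap.ext
      intro x
      funext ω'
      change e x (h⁻¹ • ω') = e (tau R h x) ω'
      rw [he, he]
      refine Fintype.sum_equiv (MulAction.toPerm h) _ _ (fun ω => ?_)
      change s (c₀ (h⁻¹ • ω') (b₀ ω)) * x ω = s (c₀ ω' (b₀ (h • ω))) * x (h⁻¹ • (h • ω))
      rw [inv_smul_smul, ← hginv h ω' (h • ω), inv_smul_smul])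
    (by
      intro x
      apply hred
      intro ω
      rw [heκ, heκ, hpre])
  have hggx : ∀ x, g (g x) = g x := fun x => by
    have h := LinearMap.congr_fun hgg x
    exact h
  have hgκ : ∀ x ω, c.κ (g x ω) = c₀ ω (pr x) := by
    intro x ω
    obtain ⟨y, hy⟩ := hge x
    have h1 : g x ω = e x ω + c.π * y ω := by
      have := congrFun hy ω
      rw [Pi.sub_apply, Pi.smul_apply, smul_eq_mul] at this
      rw [← this]
      ring
    rw [h1, map_add, map_mul, hκπ, zero_mul, add_zero, heκ]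
  have hprg : ∀ x, pr (g x) = pr x := by
    intro x
    rw [hpr (g x)]
    rw [Finset.sum_congr rfl (fun ω _ => by rw [hgκ]), f3]
  have hgt : ∀ (h : G) x, g (tau R h x) = tau R h (g x) := by
    intro h x
    have h1 := LinearMap.congr_fun (hgS _ ⟨h, rfl⟩) x
    exact h1.symm
  have hfix : ∀ x ∈ LinearMap.range g, g x = x := by
    rintro _ ⟨y, rfl⟩
    exact hggx y
  have hmem : ∀ (h : G), ∀ x ∈ LinearMap.range g, tau R h x ∈ LinearMap.range g := by
    rintro h _ ⟨y, rfl⟩
    exact ⟨tau R h y, hgt h y⟩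
  let ρ : G →* (LinearMap.range g →ₗ[R] LinearMap.range g) :=
    { toFun := fun h => (tau R h).restrict (hmem h)
      map_one' := by
        apply LinearMap.ext
        intro x
        apply Subtype.ext
        change tau R 1 x.1 = x.1
        rw [map_one]
        rfl
      map_mul' := by
        intro h k
        apply LinearMap.ext
        intro x
        apply Subtype.ext
        change tau R (h * k) x.1 = tau R h (tau R k x.1)
        rw [map_mul]
        rfl }
  have hρ : ∀ h x, (ρ h x).1 = tau R h x.1 := fun _ _ => rfl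
  have hsing : ∀ ω, pr (Pi.single ω 1) = b₀ ω := by
    intro ω
    rw [hpr, Finset.sum_eq_single ω]
    · rw [Pi.single_eq_same, map_one, one_smul]
    · intro ω' _ hne
      rw [Pi.single_eq_of_ne hne, map_zero, zero_smul]
    · intro h
      exact absurd (Finset.mem_univ ω) h
  have hfree : Module.Free R (LinearMap.range g) := inferInstance
  have hfin : Module.Finite R (LinearMap.range g) := inferInstance
  have hlast : ∀ ω (m : LinearMap.range g), c.κ (m.1 ω) = c₀ ω (pr m.1) := by
    intro ω m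
    rw [← hgκ, hfix m.1 m.2]
  refine ⟨LinearMap.range g, inferInstance, inferInstance, hfin, hfree, ρ,
    fun ω => ⟨g (Pi.single ω 1), ⟨_, rfl⟩⟩,
    fun ω => (LinearMap.proj ω).comp (LinearMap.range g).subtype,
    pr.comp (LinearMap.range g).subtype.toAddMonoidHom, ⟨?_, ?_, ?_⟩, ⟨?_, ?_, ?_, ?_⟩, ?_, ?_⟩
  · intro h ω
    apply Subtype.ext
    rw [hρ]
    change g (Pi.single (h • ω) 1) = tau R h (g (Pi.single ω 1))
    rw [← hgt]
    congr 1
    funext ω'
    rw [tau_ap]
    by_cases hω : ω' = h • ω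
    · rw [hω, inv_smul_smul, Pi.single_eq_same, Pi.single_eq_same]
    · rw [Pi.single_eq_of_ne hω, Pi.single_eq_of_ne]
      intro h1
      apply hω
      rw [← h1, smul_inv_smul]
  · intro h ω n
    change tau R h n.1 (h • ω) = n.1 ω
    rw [tau_ap, inv_smul_smul]
  · intro n
    apply Subtype.ext
    have h1 : ((∑ ω, ((LinearMap.proj ω).comp (LinearMap.range g).subtype) n •
        (⟨g (Pi.single ω 1), ⟨_, rfl⟩⟩ : LinearMap.range g) : LinearMap.range g)).1 =
        ∑ ω, n.1 ω • g (Pi.single ω 1) := by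
      rw [Submodule.coe_sum]
      rfl
    rw [h1]
    have h2 : ∑ ω, n.1 ω • g (Pi.single ω 1) = g n.1 := by
      rw [← Finset.sum_congr rfl (fun ω _ => map_smul g (n.1 ω) (Pi.single ω 1)), ← map_sum]
      congr 1
      funext ω'
      rw [Finset.sum_apply, Finset.sum_eq_single ω']
      · rw [Pi.smul_apply, Pi.single_eq_same, smul_eq_mul, mul_one]
      · intro ω _ hne
        rw [Pi.smul_apply, Pi.single_eq_of_ne hne.symm, smul_zero]
      · intro h
        exact absurd (Finset.mem_univ ω') h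
    rw [h2, hfix n.1 n.2]
  · intro r x
    change pr (r • x.1) = c.κ r • pr x.1
    exact hprs r x.1
  · intro m₀
    refine ⟨⟨g (fun ω => s (c₀ ω m₀)), ⟨_, rfl⟩⟩, ?_⟩
    change pr (g (fun ω => s (c₀ ω m₀))) = m₀
    rw [hprg, hpr]
    rw [Finset.sum_congr rfl (fun ω _ => by rw [hs]), f3]
  · intro x
    change pr x.1 = 0 ↔ _
    constructor
    · intro h
      have h1 : ∀ ω, ∃ t, x.1 ω = c.π * t := by
        intro ω
        rw [← c.ker, hlast, h, map_zero]
      choose z hz using h1
      have hxz : x.1 = c.π • z := by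
        funext ω
        rw [hz, Pi.smul_apply, smul_eq_mul]
      refine ⟨⟨g z, ⟨_, rfl⟩⟩, ?_⟩
      apply Subtype.ext
      change x.1 = c.π • g z
      rw [← map_smul, ← hxz, hfix x.1 x.2]
    · rintro ⟨y, rfl⟩
      exact hprπ y.1
  · intro h x
    change pr (tau R h x.1) = ρ₀ h (pr x.1)
    rw [hpr, hpr, map_sum]
    symm
    refine Fintype.sum_equiv (MulAction.toPerm h) _ _ (fun ω => ?_)
    change ρ₀ h (c.κ (x.1 ω) • b₀ ω) = c.κ (x.1 (h⁻¹ • (h • ω))) • b₀ (h • ω)
    rw [inv_smul_smul, map_smul, f1]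
  · intro ω
    change pr (g (Pi.single ω 1)) = b₀ ω
    rw [hprg, hsing]
  · intro ω m
    exact hlast ω m

end Pool.Agent.PSS.H64
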